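import Pool.Agent.Y734.I.Stms

/-!
Job GEN (helper734, project Y734/I), by helper991: the contradiction in the residue field.
-/

set_option autoImplicit false

namespace Pool.Agent.Y734.I.GEN

open Pool.Agent.Y734 Pool.Agent.Y734.I MvPolynomial Finset

/-- linear combination -/
lemma ev_span {κ : Type} [Field κ] [Algebra ℚ κ] {N : ℕ} (s : Set (Fin (N + 1) → ℚ))
    (x : Fin (N + 1) → κ) (hs : ∀ l ∈ s, ev l x = 0) (l : Fin (N + 1) → ℚ)
    (hl : l ∈ Submodule.span ℚ s) : ev l x = 0 := by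
  induction hl using Submodule.span_induction with
  | mem l h => exact hs l h
  | zero => unfold ev; simp
  | add a b _ _ ha hb =>
    have : ev (a + b) x = ev a x + ev b x := by
      unfold ev
      rw [← Finset.sum_add_distrib]
      apply Finset.sum_congr rfl
      intro j _
      rw [Pi.add_apply, map_add, add_mul]
    rw [this, ha, hb, add_zero]
  | smul c a _ ha =>
    have : ev (c • a) x = algebraMap ℚ κ c * ev a x := by
      unfold ev
      rw [Finset.mul_sum]
      apply Finset.sum_congr rfl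
      intro j _
      rw [Pi.smul_apply, smul_eq_mul, map_mul, mul_assoc]
    rw [this, ha, mul_zero]

/-- the contradiction -/
theorem core {Ω : Type} [Field Ω] [Algebra ℚ Ω] (V : ValuationSubring Ω)
    (hV : ∀ a : ℚ, algebraMap ℚ Ω a ∈ V) {n r q : ℕ} (Hb : Fin q → Fin (n + 1) → ℚ)
    (hb : ∀ (κ : Type) [Field κ] [Algebra ℚ κ] (p : Fin r → Fin (n + 1) → κ), (∀ k, p k ≠ 0) →
        ∃ i, nf Hb p i ≠ 0)
    (h : Fin q → Fin (n + 1) → Ω) (hh : ∀ i l, V.valuation (h i l - algebraMap ℚ Ω (Hb i l)) < 1)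
    (C : Finset (Fin q)) (B : Finset (Fin q)) (P : Fin r → Fin (n + 1) → Ω) (hP : ∀ k, P k ≠ 0)
    (c : Ω) (K : Fin q → Ω) (i₀ : Fin q) (hi₀ : i₀ ∈ C) 
    (hm : ∀ i ∈ C, V.valuation (K i) ≤ V.valuation (K i₀))
    (h1 : ∀ i ∉ C, ∏ k, ∑ l, h i l * P k l = 0)
    (h2 : ∀ i ∈ C, ∏ k, ∑ l, h i l * P k l = c * K i)
    (k₀ : Fin r) (h3 : ∀ i ∈ B, ∑ l, h i l * P k₀ l = 0)
    (h4 : Hb i₀ ∈ Submodule.span ℚ (Hb '' (B : Set (Fin q)))) : False := by
  classical
  -- the residue field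
  let κ := IsLocalRing.ResidueField V
  let ι : ℚ →+* V := (algebraMap ℚ Ω).codRestrict V.toSubring hV
  let _ : Algebra ℚ κ := ((IsLocalRing.residue V).comp ι).toAlgebra
  have hι : ∀ a : ℚ, algebraMap ℚ κ a = IsLocalRing.residue V (ι a) := fun a => rfl
  have hιc : ∀ a : ℚ, ((ι a : V) : Ω) = algebraMap ℚ Ω a := fun a => rfl
  have hres : ∀ x : V, IsLocalRing.residue V x = 0 ↔ V.valuation (x : Ω) < 1 := by
    intro x
    rw [IsLocalRing.residue_eq_zero_iff, V.valuation_lt_one_iff]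
  -- the elements of `V`
  have hhV : ∀ i l, h i l ∈ V := by
    intro i l
    have a1 := V.nonunits_le ((V.mem_nonunits_iff).mpr (hh i l))
    have a2 := V.add_mem _ _ a1 (hV (Hb i l))
    simpa using a2
  have hhr : ∀ i l, IsLocalRing.residue V ⟨h i l, hhV i l⟩ = algebraMap ℚ κ (Hb i l) := by
    intro i l
    rw [hι, ← sub_eq_zero, ← map_sub, hres]
    exact hh i l
  -- normalisation
  have hmax : ∀ k, ∃ l, ∀ l', V.valuation (P k l') ≤ V.valuation (P k l) := by
    intro k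
    obtain ⟨l, _, hl⟩ := (univ : Finset (Fin (n + 1))).exists_max_image
      (fun l => V.valuation (P k l)) ⟨0, mem_univ _⟩
    exact ⟨l, fun l' => hl l' (mem_univ _)⟩
  choose lk hlk using hmax
  have hs0 : ∀ k, P k (lk k) ≠ 0 := by
    intro k h0
    apply hP k
    funext l
    have := hlk k l
    rw [h0, map_zero, le_zero_iff, map_eq_zero] at this
    rw [this]; rfl
  obtain ⟨p, hp⟩ : ∃ p : Fin r → Fin (n + 1) → Ω, p = fun k l => P k l / P k (lk k) := ⟨_, rfl⟩
  have hpV : ∀ k l, p k l ∈ V := by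
    intro k l
    rw [← V.valuation_le_one_iff, hp, map_div₀]
    exact div_le_one_of_le₀ (hlk k l) zero_le
  have hp1 : ∀ k, p k (lk k) = 1 := by
    intro k
    rw [hp]
    exact div_self (hs0 k)
  obtain ⟨pb, hpb⟩ : ∃ pb : Fin r → Fin (n + 1) → κ,
    pb = fun k l => IsLocalRing.residue V ⟨p k l, hpV k l⟩ := ⟨_, rfl⟩
  have hpb0 : ∀ k, pb k ≠ 0 := by
    intro k h0
    have a1 := congrFun h0 (lk k)
    rw [hpb] at a1
    simp only [Pi.zero_apply] at a1
    rw [hres] at a1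
    simp only [hp1, map_one, lt_self_iff_false] at a1
  -- the values of the forms
  have hev : ∀ i k, ∃ hmem : ∑ l, h i l * p k l ∈ V,
      IsLocalRing.residue V ⟨∑ l, h i l * p k l, hmem⟩ = ev (Hb i) (pb k) := by
    intro i k
    have e1 : ((∑ l, (⟨h i l, hhV i l⟩ : V) * ⟨p k l, hpV k l⟩ : V) : Ω) =
        ∑ l, h i l * p k l := by
      push_cast
      rfl
    have e2 : ∑ l, h i l * p k l ∈ V := by
      rw [← e1]; exact Subtype.property _
    refine ⟨e2, ?_⟩
    have e3 : (⟨∑ l, h i l * p k l, e2⟩ : V) =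
        ∑ l, (⟨h i l, hhV i l⟩ : V) * ⟨p k l, hpV k l⟩ := Subtype.ext e1.symm
    rw [e3, map_sum]
    unfold ev
    apply Finset.sum_congr rfl
    intro l _
    rw [map_mul, hhr, hpb]
  choose hevV hevr using hev
  have hnf : ∀ i, ∃ hmem : ∏ k, ∑ l, h i l * p k l ∈ V,
      IsLocalRing.residue V ⟨∏ k, ∑ l, h i l * p k l, hmem⟩ = nf Hb pb i := by
    intro i
    have e1 : ((∏ k, (⟨∑ l, h i l * p k l, hevV i k⟩ : V) : V) : Ω) =
        ∏ k, ∑ l, h i l * p k l := by
      push_cast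
      rfl
    have e2 : ∏ k, ∑ l, h i l * p k l ∈ V := by
      rw [← e1]; exact Subtype.property _
    refine ⟨e2, ?_⟩
    have e3 : (⟨∏ k, ∑ l, h i l * p k l, e2⟩ : V) =
        ∏ k, (⟨∑ l, h i l * p k l, hevV i k⟩ : V) := Subtype.ext e1.symm
    rw [e3, map_prod]
    unfold nf
    apply Finset.prod_congr rfl
    intro k _
    rw [hevr]
  choose hnfV hnfr using hnf
  obtain ⟨D, hD⟩ : ∃ D : Ω, D = ∏ k, P k (lk k) := ⟨_, rfl⟩
  have hD0 : D ≠ 0 := by rw [hD]; exact Finset.prod_ne_zero_iff.mpr fun k _ => hs0 k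
  have hsc : ∀ i k, ∑ l, h i l * p k l = (∑ l, h i l * P k l) / P k (lk k) := by
    intro i k
    rw [Finset.sum_div, hp]
    apply Finset.sum_congr rfl
    intro l _
    rw [mul_div_assoc]
  have hE : ∀ i, ∏ k, ∑ l, h i l * p k l = (∏ k, ∑ l, h i l * P k l) / D := by
    intro i
    rw [hD, ← Finset.prod_div_distrib]
    apply Finset.prod_congr rfl
    intro k _
    exact hsc i k
  -- a form without zeros
  obtain ⟨i₁, hi₁⟩ := hb κ pb hpb0
  have hi₁v : V.valuation (∏ k, ∑ l, h i₁ l * p k l) = 1 := by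
    have a1 := hi₁
    rw [← hnfr i₁, Ne, hres] at a1
    have a2 := V.valuation_le_one ⟨_, hnfV i₁⟩
    exact le_antisymm a2 (not_lt.mp a1)
  have hi₁C : i₁ ∈ C := by
    by_contra hc
    rw [hE, h1 i₁ hc, zero_div, map_zero] at hi₁v
    exact zero_ne_one hi₁v
  -- the form `i₀` has a zero
  have hi₀v : V.valuation (∏ k, ∑ l, h i₀ l * p k l) < 1 := by
    have a1 : nf Hb pb i₀ = 0 := by
      unfold nf
      apply Finset.prod_eq_zero (mem_univ k₀)
      apply ev_span (Hb '' (B : Set (Fin q))) (pb k₀) _ _ h4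
      rintro _ ⟨i, hi, rfl⟩
      rw [← hevr i k₀, hres]
      simp only
      rw [hsc, h3 i hi, zero_div, map_zero]
      exact zero_lt_one
    rw [← hnfr i₀, hres] at a1
    exact a1
  rw [hE, h2 i₁ hi₁C, map_div₀, map_mul] at hi₁v
  rw [hE, h2 i₀ hi₀, map_div₀, map_mul] at hi₀v
  have : V.valuation c * V.valuation (K i₁) / V.valuation D ≤
      V.valuation c * V.valuation (K i₀) / V.valuation D := by
    rw [div_eq_mul_inv, div_eq_mul_inv]
    exact mul_le_mul_left (mul_le_mul_right (hm i₁ hi₁C) _) _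
  rw [hi₁v] at this
  exact absurd (this.trans_lt hi₀v) (lt_irrefl _)

end Pool.Agent.Y734.I.GEN
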