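import Pool.Agent.Y734.I.GEN.Ultra

/-!
Job GEN (helper734, project Y734/I), by helper991: the condition of general position, and the
final statement.
-/

set_option autoImplicit false

namespace Pool.Agent.Y734.I.GEN

open Pool.Agent.Y734 Pool.Agent.Y734.I MvPolynomial Finset Pool.Agent.Y660.QP

/-- the maximal minor for the rows `f` -/
noncomputable def mnr {q n : ℕ} (f : Fin (n + 1) ↪ Fin q) :
    MvPolynomial (Fin q × Fin (n + 1)) ℚ :=
  (Matrix.of fun a b : Fin (n + 1) => (X (f a, b) : MvPolynomial (Fin q × Fin (n + 1)) ℚ)).det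

theorem eval_mnr {q n : ℕ} (f : Fin (n + 1) ↪ Fin q) (x : Fin q × Fin (n + 1) → ℚ) :
    eval x (mnr f) = (Matrix.of fun a b : Fin (n + 1) => x (f a, b)).det := by
  unfold mnr
  rw [RingHom.map_det]
  congr 1
  ext a b
  simp

theorem mnr_ne {q n : ℕ} (f : Fin (n + 1) ↪ Fin q) : mnr f ≠ 0 := by
  intro h
  have h1 := eval_mnr f (fun ib => if ib.1 = f ib.2 then 1 else 0)
  rw [h, map_zero] at h1
  have h2 : (Matrix.of fun a b : Fin (n + 1) => if f a = f b then (1 : ℚ) else 0) = 1 := by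
    ext a b
    simp [Matrix.one_apply, f.injective.eq_iff]
  have h3 : (0 : ℚ) = (Matrix.of fun a b : Fin (n + 1) => if f a = f b then (1 : ℚ) else 0).det := h1
  rw [h2, Matrix.det_one] at h3
  exact zero_ne_one h3

theorem gpx {q n : ℕ} (H : Fin q → Fin (n + 1) → ℚ)
    (h : ∀ f : Fin (n + 1) ↪ Fin q, eval (fun ij => H ij.1 ij.2) (mnr f) ≠ 0) : GPX ∅ n H := by
  intro κ _ _ x hx _ B hB
  by_contra hcard
  push Not at hcard
  obtain ⟨e⟩ : Nonempty (Fin (n + 1) ↪ B) := by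
    apply Function.Embedding.nonempty_of_card_le
    rw [Fintype.card_fin, Fintype.card_coe]
    exact hcard
  obtain ⟨f, hf⟩ : ∃ f : Fin (n + 1) ↪ Fin q, ∀ a, f a ∈ B :=
    ⟨e.trans (Function.Embedding.subtype _), fun a => (e a).2⟩
  have h1 := h f
  rw [eval_mnr] at h1
  obtain ⟨M, hM⟩ : ∃ M : Matrix (Fin (n + 1)) (Fin (n + 1)) ℚ,
    M = Matrix.of fun a b : Fin (n + 1) => H (f a) b := ⟨_, rfl⟩
  have h2 : M.det ≠ 0 := by rw [hM]; exact h1
  have h3 : (M.map (algebraMap ℚ κ)).det ≠ 0 := by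
    have := RingHom.map_det (algebraMap ℚ κ) M
    rw [RingHom.mapMatrix_apply] at this
    rw [← this]
    exact (map_ne_zero _).mpr h2
  apply h3
  rw [← Matrix.exists_mulVec_eq_zero_iff]
  refine ⟨x, hx, ?_⟩
  funext a
  have h4 := hB (f a) (hf a)
  unfold ev at h4
  rw [hM]
  simp only [Matrix.mulVec, dotProduct, Matrix.map_apply, Matrix.of_apply, Pi.zero_apply]
  exact h4

/-- Job GEN -/
theorem gen (hb : HbarStmt) : GenStmt := by
  classical
  intro n r q hn hq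
  have h1 : ∀ T : Finset (Fin q) × Finset (Fin q) × Finset (Fin q),
      ∃ Φ : MvPolynomial (Fin q × Fin (n + 1)) ℚ, Φ ≠ 0 ∧ ∀ H : Fin q → Fin (n + 1) → ℚ,
        eval (fun ij => H ij.1 ij.2) Φ ≠ 0 → T.1.Nonempty → T.2.1.card + 1 = n →
          T.2.2.card = T.1.card → Disjoint T.2.1 T.1 → Disjoint T.2.2 T.1 →
          Disjoint T.2.2 T.2.1 → ¬ Bad r T.1 T.2.1 T.2.2 H := by
    rintro ⟨C, A, J⟩
    by_cases hT : C.Nonempty ∧ A.card + 1 = n ∧ J.card = C.card ∧ Disjoint A C ∧ Disjoint J C ∧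
      Disjoint J A
    · obtain ⟨Φ, hΦ, h2⟩ := triple hb n r q hn hq C A J hT.1 hT.2.1 hT.2.2.1 hT.2.2.2.1
        hT.2.2.2.2.1 hT.2.2.2.2.2
      exact ⟨Φ, hΦ, fun H hH _ _ _ _ _ _ => h2 H hH⟩
    · refine ⟨1, one_ne_zero, fun H _ a1 a2 a3 a4 a5 a6 => ?_⟩
      exact absurd ⟨a1, a2, a3, a4, a5, a6⟩ hT
  choose Φ hΦ0 hΦ using h1
  refine ⟨(∏ f : Fin (n + 1) ↪ Fin q, mnr f) * ∏ T, Φ T, ?_, ?_⟩
  · exact mul_ne_zero (Finset.prod_ne_zero_iff.mpr fun f _ => mnr_ne f)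
      (Finset.prod_ne_zero_iff.mpr fun T _ => hΦ0 T)
  · intro H hH
    rw [map_mul, map_prod, map_prod] at hH
    have h2 := Finset.prod_ne_zero_iff.mp (left_ne_zero_of_mul hH)
    have h3 := Finset.prod_ne_zero_iff.mp (right_ne_zero_of_mul hH)
    refine ⟨gpx H fun f => h2 f (mem_univ _), ?_⟩
    intro C A J hC hA hJ d1 d2 d3 κ hκ hbad
    apply hΦ (C, A, J) H (h3 _ (mem_univ _)) hC hA hJ d1 d2 d3
    refine ⟨κ, hκ, fun j hj => ?_⟩
    obtain ⟨p, hp0, _, hk, hz, hc⟩ := hbad j hj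
    refine ⟨p, hp0, ?_, hz, hc⟩
    obtain ⟨k, hk⟩ := hk
    refine ⟨k, fun i hi => hk i ?_⟩
    convert hi

end Pool.Agent.Y734.I.GEN
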